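import Pool.Agent.Mg.S12349.G868ac9

set_option autoImplicit false

namespace Pool.Agent.Results.MP_f14165_co.TailRect
open Finset Pool.Agent.MP_f14165_co

/-- the items placed in the batches before `g` -/
noncomputable def plT (P : GD) (g : ℕ) : MS := ∑ k ∈ Ico P.g0 g, P.its k

/-- the invariant of the batch scheme, started from an arbitrary family `S0` of boxes -/
structure InvT (P : GD) (S0 : MS) (g : ℕ) (M1 M2 : ℝ) (R J : MS) : Prop where
  step : Step S0 (plT P g + {(M1, M2)} + R + J)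
  wr : WF (P.w (g - 1)) R
  wj : WF (P.w (g - 1)) J
  ir : ∀ h1 h2, g ≤ h1 → h1 < h2 → lenI (P.w h2) (P.w h1) R ≤
    P.Init h1 h2 + ∑ k ∈ Ico P.g0 g, P.T k (P.w h2) (P.w h1)
  ii : ∀ h, g ≤ h → lenI (P.w (h + 1)) (P.w h) J ≤ P.cap h
  ib : ∀ h2, g ≤ h2 → lenGe (P.w g) (R + J) + lenI (P.w h2) (P.w g) R +
    ∑ k ∈ Ico g h2, P.cap k + ∑ k ∈ Ico g h2, P.T k (P.w h2) (P.w g) ≤
    ∑ k ∈ Ico g (h2 + 1), P.c k
  pot : 3 * (M1 + M2) + 3 * thin R + (len J + thin J) + P.κ g * thinGe (P.w g) J ≤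
    P.Mu0 + ∑ k ∈ Ico P.g0 g, P.G k
  m1 : 0 < M1
  m2 : 0 < M2
  r1 : M1 ≤ P.r * M2
  r2 : M2 ≤ P.r * M1
  mm : min M1 M2 ≤ P.m0

theorem InvT.next {P : GD} {S0 : MS} (H : P.OK) (hS : area S0 + area P.P0 = 1) {g : ℕ}
    (hg : P.g0 ≤ g) {M1 M2 : ℝ} {R J : MS} (h : InvT P S0 g M1 M2 R J) :
    ∃ M1' M2' R' J', InvT P S0 (g + 1) M1' M2' R' J' := by
  have w21 : P.w (g + 1) < P.w g := H.hw (Nat.lt_succ_self g)
  have w10 : P.w g ≤ P.w (g - 1) := H.hw.antitone (by omega)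
  have hpl : plT P (g + 1) = plT P g + P.its g := by
    simp only [plT]; rw [Finset.sum_Ico_succ_top hg]
  have hpa : ∀ k, area (P.placed k) = area P.P0 + area (plT P k) := fun k => area_add _ _
  set ER := hiP (P.w (g + 1)) R with hER
  set O := loP (P.w (g + 1)) R with hO
  set EI := hiP (P.w (g + 1)) J with hEI
  set J0 := loP (P.w (g + 1)) J with hJ0
  have eR : ER + O = R := hi_add_lo _ _
  have eJ : EI + J0 = J := hi_add_lo _ _
  have wO : WF (P.w (g + 1)) O := h.wr.lo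
  have wJ0 : WF (P.w (g + 1)) J0 := h.wj.lo
  have hc1 : 0 ≤ P.c (g + 1) := (H.hE0 _).trans (H.hEc _ (by omega))
  have ar := h.step.2
  rw [← eR, ← eJ] at ar
  simp only [area_add, area_single] at ar
  have hlo := H.hlo g hg
  rw [hpa, hpl, area_add] at hlo
  have hup := H.hup g hg
  rw [hpa] at hup
  have hOI : ∀ h1 h2, lenI (P.w h2) (P.w h1) O ≤ lenI (P.w h2) (P.w h1) R := fun _ _ =>
    lenI_lo_le h.wr
  have hArO : area O ≤ P.AR g := by
    refine area_abel H.hw H.hw0 H.hlim (g := g + 1)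
      (β := fun h => ∑ k ∈ Ico (g + 1) (h + 1), P.c k - ∑ k ∈ Ico (g + 1) h, P.cap k) wO ?_ ?_
    · intro h2 hh
      rcases hh.eq_or_lt with rfl | hh
      · rw [lenGe_lo fun s hs => (wO s hs).2.2]
        simpa using hc1
      · rw [lenGe_split (H.hw hh).le, lenGe_lo fun s hs => (wO s hs).2.2, add_zero]
        have a1 := h.ir (g + 1) h2 (by omega) hh
        have a2 := H.hM (g + 1) h2 (by omega) hh
        have a3 := H.hE0 (g + 1)
        have a4 : ∑ k ∈ Ico P.g0 g, P.T k (P.w h2) (P.w (g + 1)) ≤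
            ∑ k ∈ Ico P.g0 h2, P.T k (P.w h2) (P.w (g + 1)) :=
          Finset.sum_le_sum_of_subset_of_nonneg (Finset.Ico_subset_Ico le_rfl (by omega))
            fun k hk _ => H.T_nonneg (Finset.mem_Ico.1 hk).1 (H.hw hh)
        have := hOI (g + 1) h2
        linarith
    · intro K hK
      refine le_trans (le_of_eq ?_) (H.hAR g hg K hK)
      congr 1
      · simp
      · refine Finset.sum_congr rfl fun k hk => ?_
        have hk1 := (Finset.mem_Ico.1 hk).1
        rw [Finset.sum_Ico_succ_top (show g + 1 ≤ k + 1 by omega),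
          Finset.sum_Ico_succ_top hk1 P.cap]
        ring
  have tEI : thin EI ≤ P.cap g + thinGe (P.w g) J := by
    have a1 : thinGe (P.w (g + 1)) J = thin EI := by
      rw [← eJ]
      simp only [thinGe, sm_add]
      have b1 := thinGe_hi (t := P.w (g + 1)) (M := EI) fun s hs => (mem_hiP.1 hs).2
      have b2 := thinGe_lo (t := P.w (g + 1)) (M := J0) fun s hs => (wJ0 s hs).2.2
      simp only [thinGe] at b1 b2
      rw [b1, b2, add_zero]
    have a2 := thinGe_le (a := P.w (g + 1)) (b := P.w g) h.wj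
    have := h.ii g le_rfl
    linarith
  have hpot := h.pot
  have hκ0 := H.hκ0 g hg
  have hG := H.hG g hg
  have tO := thin_nonneg wO
  have sR : thin R = thin ER + thin O := sm_split _ _ _
  have sJ : thin J = thin EI + thin J0 := sm_split _ _ _
  have sL : len J = len EI + len J0 := sm_split _ _ _
  have hκt : P.κ g * thin EI ≤ P.κ g * (P.cap g + thinGe (P.w g) J) :=
    mul_le_mul_of_nonneg_left tEI hκ0
  let Q : BD :=
    { w := P.w, cap := P.cap, u := P.u, Λ := P.Λ, Mu := P.Mu, r := P.r, m0 := P.m0,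
      w0 := P.w (g - 1), w1 := P.w g, w2 := P.w (g + 1), σ := P.σ g, τ := P.τ g, e := P.e g,
      d := P.d g, κ := P.κ g, E := P.E (g + 1), AR := P.AR g, ArO := area O,
      Φ0 := 3 * (M1 + M2) + 3 * thin ER + (len EI + (1 + P.κ g) * thin EI) + (len J0 + thin J0),
      l1 := lenGe (P.w g) (ER + EI), l2 := len (ER + EI),
      b := P.b g, N := P.N, m := P.m g, a := P.a g, B := P.B g,
      S0 := {(M1, M2)} + (ER + EI) + J0 }
  have hGs := H.hGs (g + 1) (by omega)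
  rw [Finset.sum_Ico_succ_top hg] at hGs
  have HQ : Q.OK :=
    { hw := H.hw, hw0 := H.hw0, hlim := H.hlim, hu := H.hu, hu1 := H.hu1, hΛ := H.hΛ,
      hMu := H.hMu, h21 := w21, h20 := w21.le.trans w10, hN := H.hN, ha := H.ha g hg,
      hab := H.hab g hg, hB := H.hB g hg, hσ0 := H.hσ0 g hg, hσ := H.hσ g hg, hτ := H.hτ g hg,
      hτB := H.hτB g hg, he := H.he g hg, hd := H.hd g hg, hκ0 := hκ0, hκ := H.hκ g hg,
      hbook := H.hbook g hg, huw := H.huw g hg, hr := H.hr, hE := H.hE g hg,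
      hup := by simp only [Q, area_add, area_single]; linarith
      hlo := by
        have : Q.its 0 = P.its g := rfl
        rw [this]
        simp only [Q, area_add, area_single]; linarith
      hO0 := BD.area_nonneg_wf wO, hO := hArO, hmain := H.hmain g hg
      hΦ := by
        simp only [Q, BD.gr]
        linarith }
  have hE0 : ∀ s ∈ ER + EI, P.w (g + 1) ≤ s.2 ∧ s.2 ≤ P.w (g - 1) ∧ s.2 ≤ s.1 := by
    intro s hs
    rcases Multiset.mem_add.1 hs with hs | hs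
    · have := h.wr s (mem_hiP.1 hs).1
      exact ⟨(mem_hiP.1 hs).2, this.2.2.le, this.2.1⟩
    · have := h.wj s (mem_hiP.1 hs).1
      exact ⟨(mem_hiP.1 hs).2, this.2.2.le, this.2.1⟩
  obtain ⟨f1, f2, f3, f4⟩ := H.facts hg
  have start : Q.Mid Q.m M1 M2 (P.w (g - 1)) ER EI 0 J0 :=
    { step := Step.of_eq (by simp [Q, BD.its])
      eok := ⟨w21.le.trans w10, le_rfl, hE0, by simp [Q, BD.pl], by simp [Q, BD.pl]⟩
      chw := WF.zero _
      chl := by simp
      chain := Chain.zero (by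
        have a1 := HQ.le_inv (le_refl Q.m)
        have a2 := HQ.hτ
        exact le_trans (sub_le_sub_left a1 _) a2) f3 f4
      jw := wJ0
      jc := fun k => by
        by_cases hk : g + 1 ≤ k
        · exact (lenI_lo_le h.wj).trans (h.ii k (by omega))
        · rw [lenI_lo fun s hs => (wJ0 s hs).2.2.trans_le (H.hw.antitone (by omega))]
          exact H.hcap k
      pot := by simp [Q, BD.gr, thin]
      m1 := h.m1, m2 := h.m2, r1 := h.r1, r2 := h.r2, mm := h.mm }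
  obtain ⟨N1, N2, Y, ER', EI', Ch, J', f⟩ := start.run HQ le_rfl
  have hpl0 : P.c g ≤ Q.pl 0 := H.hc g hg
  have eok := f.eok
  have hE' : ∀ s ∈ ER' + EI', P.w (g + 1) ≤ s.2 ∧ s.2 ≤ Y ∧ s.2 ≤ s.1 := eok.hE
  have w2p := H.hw0 (g + 1)
  have chain : Chain (P.σ g) (P.τ g) (P.e g) (P.d g) Ch := by
    refine f.chain.mono ?_ f1 f3 f4
    have a1 := HQ.inv_le 0
    have a2 := HQ.hσ
    have a3 := eok.hY1
    exact le_trans a2 (sub_le_sub a3 a1)
  have l1e : lenGe (P.w g) (R + J) = lenGe (P.w g) (ER + EI) := by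
    rw [← eR, ← eJ]
    have b1 := lenGe_lo (t := P.w g) (M := O) fun s hs => (wO s hs).2.2.trans w21
    have b2 := lenGe_lo (t := P.w g) (M := J0) fun s hs => (wJ0 s hs).2.2.trans w21
    simp only [lenGe, sm_add] at b1 b2 ⊢
    linarith
  have l2e : lenGe (P.w (g + 1)) (R + J) = len (ER + EI) := by
    rw [← lenGe_hi (t := P.w (g + 1)) fun s hs => (hE0 s hs).1, ← eR, ← eJ]
    have b1 := lenGe_lo (t := P.w (g + 1)) (M := O) fun s hs => (wO s hs).2.2
    have b2 := lenGe_lo (t := P.w (g + 1)) (M := J0) fun s hs => (wJ0 s hs).2.2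
    simp only [lenGe, sm_add] at b1 b2 ⊢
    linarith
  have gone : ∀ s ∈ ER' + EI', s.2 < P.w g := by
    intro s hs
    by_contra hn
    have a1 := h.ib g le_rfl
    simp only [lenI_self, Finset.Ico_self, Finset.sum_empty, add_zero,
      Nat.Ico_succ_singleton, Finset.sum_singleton] at a1
    have a2 : lenGe (P.w g) (ER' + EI') ≤ max 0 (lenGe (P.w g) (ER + EI) - Q.pl 0) := eok.h1
    rw [max_eq_left (by linarith)] at a2
    have a3 := le_sm (f := fun s => if P.w g ≤ s.2 then s.1 else 0) (M := ER' + EI')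
      (fun t ht => by have := hE' t ht; split_ifs <;> linarith) hs
    simp only [if_pos (not_lt.1 hn)] at a3
    have := hE' s hs
    simp only [lenGe] at a2
    linarith
  have chw : WF (P.w (g + 1)) Ch := f.chw
  have jw : WF (P.w (g + 1)) J' := f.jw
  have wER : WF (P.w g) ER' := fun s hs => by
    have a1 := hE' s (Multiset.mem_add.2 (Or.inl hs))
    exact ⟨by linarith, a1.2.2, gone s (Multiset.mem_add.2 (Or.inl hs))⟩
  have wEI : WF (P.w g) EI' := fun s hs => by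
    have a1 := hE' s (Multiset.mem_add.2 (Or.inr hs))
    exact ⟨by linarith, a1.2.2, gone s (Multiset.mem_add.2 (Or.inr hs))⟩
  have lenR : ∀ h1 h2, g + 1 ≤ h1 → lenI (P.w h2) (P.w h1) (O + ER' + Ch) =
      lenI (P.w h2) (P.w h1) O + lenI (P.w h2) (P.w h1) Ch := by
    intro h1 h2 hh
    have b1 := lenI_hi (lo := P.w h2) (hi := P.w h1) (M := ER') fun s hs =>
      (H.hw.antitone hh).trans (hE' s (Multiset.mem_add.2 (Or.inl hs))).1
    simp only [lenI, sm_add] at b1 ⊢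
    linarith
  refine ⟨N1, N2, O + ER' + Ch, EI' + J', ?_, ?_, ?_, ?_, ?_, ?_, ?_, f.m1, f.m2, f.r1, f.r2, f.mm⟩
  · refine h.step.trans ?_
    have := f.step.add_left (plT P g + O)
    refine (Step.of_eq ?_).trans (this.trans (Step.of_eq ?_))
    · rw [← eR, ← eJ]; simp only [Q]; abel
    · rw [hpl, show Q.its 0 = P.its g from rfl]; abel
  · exact ((wO.mono w21.le).add wER).add (chw.mono w21.le)
  · exact wEI.add (jw.mono w21.le)
  · intro h1 h2 a1 a2
    rw [lenR h1 h2 a1, Finset.sum_Ico_succ_top hg]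
    have b1 := h.ir h1 h2 (by omega) a2
    have b2 := hOI h1 h2
    have b3 : lenI (P.w h2) (P.w h1) Ch ≤ P.T g (P.w h2) (P.w h1) := chain _ _ (H.hw a2)
    linarith
  · intro k hk
    have b1 := lenI_hi (lo := P.w (k + 1)) (hi := P.w k) (M := EI') fun s hs =>
      (H.hw.antitone hk).trans (hE' s (Multiset.mem_add.2 (Or.inr hs))).1
    have b2 : lenI (P.w (k + 1)) (P.w k) J' ≤ P.cap k := f.jc k
    simp only [lenI, sm_add] at b1 b2 ⊢
    linarith
  · intro h2 hh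
    have b0 : lenGe (P.w (g + 1)) (O + ER' + Ch + (EI' + J')) = len (ER' + EI') := by
      rw [← lenGe_hi (t := P.w (g + 1)) fun s hs => (hE' s hs).1]
      have b1 := lenGe_lo (t := P.w (g + 1)) (M := O) fun s hs => (wO s hs).2.2
      have b2 := lenGe_lo (t := P.w (g + 1)) (M := Ch) fun s hs => (chw s hs).2.2
      have b3 := lenGe_lo (t := P.w (g + 1)) (M := J') fun s hs => (jw s hs).2.2
      simp only [lenGe, sm_add] at b1 b2 b3 ⊢
      linarith
    rw [b0, lenR _ _ le_rfl]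
    have b1 : len (ER' + EI') ≤ max (P.E (g + 1)) (len (ER + EI) - Q.pl 0) := eok.h2
    have wh : P.w h2 ≤ P.w (g + 1) := H.hw.antitone hh
    rcases le_max_iff.1 b1 with b1 | b1
    · rcases hh.eq_or_lt with rfl | hh'
      · have := H.hEc (g + 1) (by omega)
        simp only [lenI_self, Finset.Ico_self, Finset.sum_empty, add_zero,
          Nat.Ico_succ_singleton, Finset.sum_singleton]
        linarith
      · have c1 := h.ir (g + 1) h2 (by omega) hh'
        have c2 := hOI (g + 1) h2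
        have c3 : lenI (P.w h2) (P.w (g + 1)) Ch ≤ P.T g (P.w h2) (P.w (g + 1)) :=
          chain _ _ (H.hw hh')
        have c4 := H.hM (g + 1) h2 (by omega) hh'
        rw [← Finset.sum_Ico_consecutive _ (show P.g0 ≤ g + 1 by omega) hh,
          Finset.sum_Ico_succ_top hg] at c4
        linarith
    · have c1 := h.ib h2 (by omega)
      rw [Finset.sum_eq_sum_Ico_succ_bot (show g < h2 by omega),
        Finset.sum_eq_sum_Ico_succ_bot (show g < h2 by omega),
        Finset.sum_eq_sum_Ico_succ_bot (show g < h2 + 1 by omega),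
        lenI_split wh w21.le R] at c1
      have c2 : ∑ k ∈ Ico (g + 1) h2, P.T k (P.w h2) (P.w (g + 1)) =
          ∑ k ∈ Ico (g + 1) h2, P.T k (P.w h2) (P.w g) := by
        refine Finset.sum_congr rfl fun k hk => ?_
        have hk1 := (Finset.mem_Ico.1 hk).1
        obtain ⟨d1, d2, _, _⟩ := H.facts (show P.g0 ≤ k by omega)
        have d3 : P.w (k + 1) ≤ P.w (g + 1) := H.hw.antitone (by omega)
        exact tb_hi d1 (by linarith) (by linarith)
      have c3 : lenI (P.w h2) (P.w g) Ch ≤ P.T g (P.w h2) (P.w g) := chain _ _ (wh.trans_lt w21)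
      rw [lenI_split wh w21.le Ch] at c3
      have c4 := lenI_nonneg (lo := P.w (g + 1)) (hi := P.w g) chw
      have c5 := hOI (g + 1) h2
      have c6 := lenGe_split w21.le (R + J)
      have c7 : lenI (P.w (g + 1)) (P.w g) (R + J) =
          lenI (P.w (g + 1)) (P.w g) R + lenI (P.w (g + 1)) (P.w g) J := sm_add _ _ _
      have c8 := h.ii g le_rfl
      rw [c2]
      linarith
  · have b1 := f.pot
    simp only [Q, BD.gr] at b1
    have b2 : thinGe (P.w (g + 1)) (EI' + J') = thin EI' := by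
      have c1 := thinGe_hi (t := P.w (g + 1)) (M := EI') fun s hs =>
        (hE' s (Multiset.mem_add.2 (Or.inr hs))).1
      have c2 := thinGe_lo (t := P.w (g + 1)) (M := J') fun s hs => (jw s hs).2.2
      simp only [thinGe, sm_add] at c1 c2 ⊢
      rw [c1, c2, add_zero]
    have b3 : P.κ (g + 1) * thin EI' ≤ P.κ g * thin EI' :=
      mul_le_mul_of_nonneg_right (H.hκa g hg) (thin_nonneg wEI)
    rw [b2, Finset.sum_Ico_succ_top hg]
    simp only [thin, len, sm_add] at *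
    linarith


theorem fitsT {P : GD} (H : P.OK) (hI : ∀ h1 h2, 0 ≤ P.Init h1 h2) {A B : ℝ} (hA : 0 < A)
    (hB : 0 < B) (hS : A * B + area P.P0 = 1) (hp : 3 * (A + B) ≤ P.Mu0) (r1 : A ≤ P.r * B)
    (r2 : B ≤ P.r * A) (mm : min A B ≤ P.m0) {g : ℕ} (hg : P.g0 ≤ g) :
    Fits (Set.Ioo 0 A ×ˢ Set.Ioo 0 B) (plT P g) := by
  have key : ∀ g, P.g0 ≤ g → ∃ M1 M2 R J, InvT P {(A, B)} g M1 M2 R J := by
    intro g hg
    induction g, hg using Nat.le_induction with
    | base =>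
      refine ⟨A, B, 0, 0, Step.of_eq (by simp [plT]), WF.zero _, WF.zero _, ?_, ?_, ?_, ?_,
        hA, hB, r1, r2, mm⟩
      · intro h1 h2 _ _
        simpa [lenI] using hI h1 h2
      · intro h _
        simpa [lenI] using H.hcap h
      · intro h2 hh
        rcases hh.eq_or_lt with rfl | hh'
        · simpa [lenI, lenGe] using (H.hE0 _).trans (H.hEc _ le_rfl)
        · have c2 := H.hM _ _ le_rfl hh'
          have := H.hE0 P.g0
          have := hI P.g0 h2
          simp only [lenI, lenGe, add_zero, sm_zero, zero_add]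
          linarith
      · simpa [thin, len, thinGe] using hp
    | succ g hg ih =>
      obtain ⟨_, _, _, _, hI⟩ := ih
      exact hI.next H (by simpa using hS) hg
  obtain ⟨N1, N2, R', J, hI⟩ := key g hg
  have h1 : Fits (Set.Ioo 0 A ×ˢ Set.Ioo 0 B) ({(A, B)} : MS) := by
    rw [← Multiset.cons_zero, fits_cons]
    exact ⟨_, ⟨0, 0, Or.inl (by simp)⟩, subset_rfl, fits_zero _⟩
  have h2 := hI.step.1 _ h1
  rw [add_assoc, add_assoc] at h2
  obtain ⟨V, hV, h3, _⟩ := fits_add.1 h2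
  exact h3.mono hV

def aT (n g : ℕ) : ℕ := max n (acq g)
def bT (n g : ℕ) : ℕ := aT n g + (g + 17 * aT n g) % 18
def mT (n g : ℕ) : ℕ := (bT n (g + 18) - bT n g) / 18
noncomputable def capT (g0 h : ℕ) : ℝ := if g0 + 18 ≤ h then 12 / 25 / (h : ℝ) else 0
noncomputable def cT (g0 g : ℕ) : ℝ :=
  max 0 ((1 - (max (((g0 : ℝ) + 21) ^ 3) (((g : ℝ) + 3) ^ 3) + 77900) / ((g : ℝ) + 21) ^ 3) / 18)
noncomputable def ET (g0 h : ℕ) : ℝ := if h ≤ g0 then 0 else Eq' mR h

noncomputable def gT (n g0 : ℕ) : GD where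
  g0 := g0
  N := 18
  w := wq
  cap := capT g0
  c := cT g0
  E := ET g0
  κ := fun g => 6601 / 100 / (g : ℝ)
  G := fun g => 384 / ((g : ℝ) - 1) - 384 / (g : ℝ)
  σ := sgq
  τ := tauq
  e := fun g => 4100 / ((g : ℝ) + 3) ^ 3
  d := dq
  AR := fun g => 21 / 25 * (4100 / (g : ℝ) ^ 3) + 12 * (4100 / ((g : ℝ) + 1) ^ 4)
  b := bT n
  m := mT n
  a := aT n
  B := fun g => aT n (g + 18) + 18
  u := 99 / 100
  Λ := 39 / 250
  Mu := 213 / 2000
  Mu0 := 1 / 10
  r := (n : ℝ) / 900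
  m0 := mR
  Init := fun _ _ => 0
  P0 := {(1, 1 - 1 / (n : ℝ))}

theorem aT_mono (n : ℕ) {g g' : ℕ} (h : g ≤ g') : aT n g ≤ aT n g' := max_le_max le_rfl (acq_mono h)

theorem aT_ge (n g : ℕ) : ((g : ℝ) + 3) ^ 3 / 4100 ≤ aT n g :=
  (acq_bd g).1.trans (by exact_mod_cast le_max_right _ _)

theorem n_le_aT (n g : ℕ) : n ≤ aT n g := le_max_left _ _

theorem bT_spec (n g : ℕ) : aT n g ≤ bT n g ∧ bT n g < aT n g + 18 ∧ bT n g % 18 = g % 18 := by
  unfold bT; omega

theorem bT_next (n g : ℕ) : bT n g + mT n g * 18 = bT n (g + 18) := by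
  have h1 := bT_spec n g
  have h2 := bT_spec n (g + 18)
  have h3 := aT_mono n (show g ≤ g + 18 by omega)
  unfold mT; omega

/-- `g0` is the starting batch for `n` -/
structure St (n g0 : ℕ) : Prop where
  big : 200000 ≤ g0
  lo : acq (g0 + 17) ≤ n
  hi : n ≤ acq (g0 + 18)

theorem St.pos {n g0 : ℕ} (h : St n g0) : 1800 ≤ n := by
  have h1 := acq_mono (show 5817 ≤ g0 + 17 by have := h.big; omega)
  have := h.lo
  rw [acq_g1] at h1
  omega

theorem St.a_lo {n g0 : ℕ} (h : St n g0) {g : ℕ} (hg : g ≤ g0 + 17) : aT n g = n :=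
  max_eq_left ((acq_mono hg).trans h.lo)

theorem St.a_hi {n g0 : ℕ} (h : St n g0) {g : ℕ} (hg : g0 + 18 ≤ g) : aT n g = acq g :=
  max_eq_right (h.hi.trans (acq_mono hg))

theorem St.n_le {n g0 : ℕ} (h : St n g0) : (n : ℝ) ≤ ((g0 : ℝ) + 21) ^ 3 / 4100 + 1 := by
  have h1 := (acq_bd (g0 + 18)).2
  have h2 : (n : ℝ) ≤ acq (g0 + 18) := by exact_mod_cast h.hi
  push_cast at h1
  rw [show (g0 : ℝ) + 18 + 3 = g0 + 21 by ring] at h1
  linarith

theorem St.a_le {n g0 : ℕ} (h : St n g0) (g : ℕ) :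
    (4100 : ℝ) * aT n g ≤ max (((g0 : ℝ) + 21) ^ 3) (((g : ℝ) + 3) ^ 3) + 4100 := by
  rcases le_or_gt g (g0 + 17) with hg | hg
  · rw [h.a_lo hg]
    linarith [h.n_le, le_max_left (((g0 : ℝ) + 21) ^ 3) (((g : ℝ) + 3) ^ 3)]
  · rw [h.a_hi hg]
    linarith [(acq_bd g).2, le_max_right (((g0 : ℝ) + 21) ^ 3) (((g : ℝ) + 3) ^ 3)]

theorem St.B_le {n g0 : ℕ} (h : St n g0) {g : ℕ} (hg : g0 ≤ g) :
    ((aT n (g + 18) + 18 : ℕ) : ℝ) ≤ ((g : ℝ) + 21) ^ 3 / 4100 + 19 := by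
  rw [h.a_hi (by omega)]
  have := (acq_bd (g + 18)).2
  push_cast at this ⊢
  have e : (g : ℝ) + 18 + 3 = g + 21 := by ring
  rw [e] at this
  linarith

theorem area_tail {n k : ℕ} (hn : 1 ≤ n) (hk : n ≤ k) :
    area (∑ j ∈ Ico n k, ({item j} : MS)) = 1 / (n : ℝ) - 1 / (k : ℝ) := by
  have h1 := area_items n hn
  have h2 := area_items k (hn.trans hk)
  rw [← Finset.sum_Ico_consecutive _ hn hk, area_add] at h2
  linarith

theorem St.pl_spec {n g0 : ℕ} (h : St n g0) {g : ℕ} (hg : g0 ≤ g) :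
    ∃ S : Finset ℕ, plT (gT n g0) g = ∑ j ∈ S, ({item j} : MS) ∧
      ∀ j, j ∈ S ↔ n ≤ j ∧ j < bT n (g + (j + 17 * g) % 18) := by
  induction g, hg using Nat.le_induction with
  | base =>
    refine ⟨∅, by simp [plT, gT], fun j => ?_⟩
    have h1 := bT_spec n (g0 + (j + 17 * g0) % 18)
    rw [h.a_lo (by omega)] at h1
    simp only [Finset.notMem_empty, false_iff]
    omega
  | succ g hg ih =>
    obtain ⟨S, h1, h2⟩ := ih
    have h3 := bT_spec n g
    have h4 := bT_next n g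
    have h5 := n_le_aT n g
    let I := (Ico 0 (mT n g)).image fun i => bT n g + i * 18
    have hI : ∀ j, j ∈ I ↔ bT n g ≤ j ∧ j < bT n (g + 18) ∧ j % 18 = g % 18 := by
      intro j
      simp only [I, Finset.mem_image, Finset.mem_Ico]
      constructor
      · rintro ⟨i, hi, rfl⟩; omega
      · intro h; exact ⟨(j - bT n g) / 18, by omega, by omega⟩
    have hd : Disjoint S I := by
      rw [Finset.disjoint_left]
      intro j hj hj'
      rw [h2] at hj; rw [hI] at hj'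
      have : g + (j + 17 * g) % 18 = g := by omega
      rw [this] at hj; omega
    refine ⟨S ∪ I, ?_, fun j => ?_⟩
    · rw [Finset.sum_union hd, ← h1, Finset.sum_image (fun i _ j _ h => by
        have h' : bT n g + i * 18 = bT n g + j * 18 := h
        omega)]
      simp only [plT]
      rw [Finset.sum_Ico_succ_top (show (gT n g0).g0 ≤ g from hg)]
      rfl
    · rw [Finset.mem_union, h2, hI]
      by_cases hj : j % 18 = g % 18
      · have e1 : g + (j + 17 * g) % 18 = g := by omega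
        have e2 : g + 1 + (j + 17 * (g + 1)) % 18 = g + 18 := by omega
        rw [e1, e2]; omega
      · have e2 : g + 1 + (j + 17 * (g + 1)) % 18 = g + (j + 17 * g) % 18 := by omega
        rw [e2]; omega

theorem cT_nonneg (g0 g : ℕ) : 0 ≤ cT g0 g := le_max_left _ _

theorem cT_le (g0 : ℕ) {g : ℕ} (hg : 5800 ≤ g) : cT g0 g ≤ 3 / (g : ℝ) := by
  have hx : (5800 : ℝ) ≤ g := by exact_mod_cast hg
  refine max_le (by positivity) (le_trans ?_ (p_cup hx))
  have : ((g : ℝ) + 3) ^ 3 / ((g : ℝ) + 21) ^ 3 ≤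
      (max (((g0 : ℝ) + 21) ^ 3) (((g : ℝ) + 3) ^ 3) + 77900) / ((g : ℝ) + 21) ^ 3 :=
    div_le_div_of_nonneg_right
      (by linarith [le_max_right (((g0 : ℝ) + 21) ^ 3) (((g : ℝ) + 3) ^ 3)]) (by positivity)
  linarith

theorem cq_le_cT {g0 g : ℕ} (hg : g0 + 18 ≤ g) : cq g ≤ cT g0 g := by
  refine le_trans ?_ (le_max_right _ _)
  have hx : (g0 : ℝ) + 21 ≤ g + 3 := by
    have : ((g0 + 18 : ℕ) : ℝ) ≤ g := by exact_mod_cast hg
    push_cast at this; linarith
  rw [max_eq_right (pow_le_pow_left₀ (by positivity) hx 3)]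
  unfold cq
  have : (((g : ℝ) + 3) ^ 3 + 77900) / ((g : ℝ) + 21) ^ 3 ≤
      (max 197137368500 (((g : ℝ) + 3) ^ 3 + 4100) + 73800) / ((g : ℝ) + 21) ^ 3 :=
    div_le_div_of_nonneg_right
      (by linarith [le_max_right (197137368500 : ℝ) (((g : ℝ) + 3) ^ 3 + 4100)]) (by positivity)
  linarith

theorem q_c {x : ℝ} (h : 200000 ≤ x) :
    16 / 100 / x ≤ (1 - ((x + 20) ^ 3 + 77900) / (x + 21) ^ 3) / 18 := by
  obtain ⟨t, ht, rfl⟩ := shift h
  rw [one_sub_div (by positivity), div_div, div_div,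
    div_le_div_iff₀ (by positivity) (by positivity), ← sub_nonneg]
  ring_nf; positivity

theorem ET_le {g0 : ℕ} (h0 : 200000 ≤ g0) {h : ℕ} (hh : g0 ≤ h) : ET g0 h ≤ cT g0 h := by
  unfold ET
  split_ifs with h1
  · exact cT_nonneg _ _
  rcases le_or_gt (g0 + 18) h with h2 | h2
  · exact (hEc h (by omega)).trans (cq_le_cT h2)
  have hx : (200000 : ℝ) ≤ h := by exact_mod_cast h0.trans hh
  have a1 : Eq' mR h ≤ 16 / 100 / (h : ℝ) := by
    unfold Eq'
    rw [if_neg (by omega)]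
    refine (min_le_right _ _).trans (Real.sqrt_le_iff.2 ⟨by positivity, ?_⟩)
    obtain ⟨t, ht, e⟩ := shift hx
    rw [e, div_pow, div_le_div_iff₀ (by positivity) (by positivity), ← sub_nonneg]
    ring_nf; positivity
  refine a1.trans ((q_c hx).trans (le_trans ?_ (le_max_right _ _)))
  have b1 : (g0 : ℝ) + 21 ≤ h + 20 := by
    have : ((g0 + 1 : ℕ) : ℝ) ≤ h := by exact_mod_cast (by omega : g0 + 1 ≤ h)
    push_cast at this; linarith
  have b2 : max (((g0 : ℝ) + 21) ^ 3) (((h : ℝ) + 3) ^ 3) ≤ ((h : ℝ) + 20) ^ 3 :=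
    max_le (pow_le_pow_left₀ (by positivity) b1 3)
      (pow_le_pow_left₀ (by positivity) (by linarith) 3)
  have : (max (((g0 : ℝ) + 21) ^ 3) (((h : ℝ) + 3) ^ 3) + 77900) / ((h : ℝ) + 21) ^ 3 ≤
      (((h : ℝ) + 20) ^ 3 + 77900) / ((h : ℝ) + 21) ^ 3 :=
    div_le_div_of_nonneg_right (by linarith) (by positivity)
  linarith

theorem win_T {g0 h : ℕ} (h0 : 200000 ≤ g0) {x : ℝ} (h1 : wq (h + 1) ≤ 99 / 100 * x)
    (h2 : x ≤ wq (g0 - 1)) : g0 + 18 ≤ h := by
  by_contra hn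
  have h3 := wq_anti.antitone (show h + 1 ≤ g0 + 18 by omega)
  rw [wq_pos' (show 0 < g0 + 18 by omega)] at h3
  rw [wq_pos' (show 0 < g0 - 1 by omega), Nat.cast_sub (by omega)] at h2
  have hx : (200000 : ℝ) ≤ g0 := by exact_mod_cast h0
  push_cast at h2 h3
  have h4 : 99 / 100 * (4100 / ((g0 : ℝ) - 1) ^ 3) < 4100 / ((g0 : ℝ) + 18) ^ 3 := by
    obtain ⟨t, ht, e⟩ := shift hx
    rw [e, show t + 200000 - 1 = t + 199999 by ring, ← mul_div_assoc,
      div_lt_div_iff₀ (by positivity) (by positivity), ← sub_pos]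
    ring_nf; positivity
  linarith

theorem q_main {x r : ℝ} (h : 200000 ≤ x) (hr : r ≤ ((x + 21) ^ 3 / 4100 + 1) / 900) :
    4 * r * (4100 / (x + 1) ^ 3) ^ 2 ≤ 1 / ((x + 21) ^ 3 / 4100 + 19) -
      (21 / 25 * (4100 / x ^ 3) + 12 * (4100 / (x + 1) ^ 4)) - 4100 / (x + 1) ^ 3 * (213 / 2000) := by
  obtain ⟨t, ht, rfl⟩ := shift h
  have a1 : 99 / 100 * (4100 / (t + 200000 + 1) ^ 3) ≤ 1 / ((t + 200000 + 21) ^ 3 / 4100 + 19) := by
    rw [← mul_div_assoc, div_le_div_iff₀ (by positivity) (by positivity), ← sub_nonneg]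
    ring_nf; positivity
  have a2 : 4100 / (t + 200000) ^ 3 ≤ 1001 / 1000 * (4100 / (t + 200000 + 1) ^ 3) := by
    rw [← mul_div_assoc, div_le_div_iff₀ (by positivity) (by positivity), ← sub_nonneg]
    ring_nf; positivity
  have a3 : 4100 / (t + 200000 + 1) ^ 4 ≤ 1 / 1000 * (4100 / (t + 200000 + 1) ^ 3) := by
    rw [← mul_div_assoc, div_le_div_iff₀ (by positivity) (by positivity), ← sub_nonneg]
    ring_nf; positivity
  have a4 : ((t + 200000 + 21) ^ 3 / 4100 + 1) * (4100 / (t + 200000 + 1) ^ 3) ≤ 2 := by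
    rw [← mul_div_assoc, div_le_iff₀ (by positivity), ← sub_nonneg]
    ring_nf; positivity
  have w0 : 0 < 4100 / (t + 200000 + 1) ^ 3 := by positivity
  generalize 4100 / (t + 200000 + 1) ^ 3 = W at *
  have a5 : r * W ≤ 2 / 900 := by
    have := mul_le_mul_of_nonneg_right hr w0.le
    linarith
  have a6 : r * W * W ≤ 2 / 900 * W := mul_le_mul_of_nonneg_right a5 w0.le
  nlinarith

theorem tau_lt {g0 k : ℕ} (h0 : 200000 ≤ g0) (hk : g0 ≤ k) : tauq k < wq (g0 + 18) := by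
  have hx : (200000 : ℝ) ≤ g0 := by exact_mod_cast h0
  have hk' : (g0 : ℝ) ≤ k := by exact_mod_cast hk
  rw [wq_pos' (by omega), tauq]
  push_cast
  have a1 : (((g0 : ℝ) - 1) * (g0 + 21)) ^ 2 ≤ (((k : ℝ) - 1) * (k + 21)) ^ 2 :=
    pow_le_pow_left₀ (mul_nonneg (by linarith) (by linarith))
      (mul_le_mul (by linarith) (by linarith) (by linarith) (by linarith)) 2
  have a0 : 0 < (((g0 : ℝ) - 1) * (g0 + 21)) ^ 2 :=
    pow_pos (mul_pos (by linarith) (by linarith)) 2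
  refine (div_le_div_of_nonneg_left (by norm_num) a0 a1).trans_lt ?_
  obtain ⟨t, ht, e⟩ := shift hx
  rw [e, show t + 200000 - 1 = t + 199999 by ring,
    div_lt_div_iff₀ (by positivity) (by positivity), ← sub_pos]
  ring_nf; positivity

theorem steady {g0 h1 h2 : ℕ} (h0 : 200000 ≤ g0) (a1 : g0 + 18 ≤ h1) (a2 : h1 < h2) :
    Eq' mR h1 + ∑ k ∈ Ico g0 h2,
      tb (sgq k) (tauq k) (4100 / ((k : ℝ) + 3) ^ 3) (dq k) (wq h2) (wq h1) +
      ∑ k ∈ Ico h1 h2, capT g0 k ≤ ∑ k ∈ Ico h1 (h2 + 1), cT g0 k := by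
  have d2 := sumT_le (show 5800 ≤ h1 by omega) a2
  have d3 : ∑ k ∈ Ico g0 h2,
      tb (sgq k) (tauq k) (4100 / ((k : ℝ) + 3) ^ 3) (dq k) (wq h2) (wq h1) ≤ ∑ k ∈ Ico 5800 h2,
      tb (sgq k) (tauq k) (4100 / ((k : ℝ) + 3) ^ 3) (dq k) (wq h2) (wq h1) :=
    Finset.sum_le_sum_of_subset_of_nonneg (Finset.Ico_subset_Ico (by omega) le_rfl)
      fun k hk _ => tb_nonneg (sg_le_tau (Finset.mem_Ico.1 hk).1) (by positivity) (dq_nonneg k)
        (wq_anti a2)
  have d4 : 0 ≤ phq (G2 h2) := div_nonneg (by norm_num) (sq_nonneg _)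
  have d5 := (tail2 (show 102400 ≤ h1 by omega)).trans (cq_le_cT a1)
  have d6 : ∑ k ∈ Ico h1 h2, (thq k + capT g0 k) ≤ ∑ k ∈ Ico h1 h2, cT g0 (k + 1) := by
    refine Finset.sum_le_sum fun k hk => ?_
    have hk1 := (Finset.mem_Ico.1 hk).1
    have b1 := (tail1 (show 102400 ≤ k by omega)).trans (cq_le_cT (show g0 + 18 ≤ k + 1 by omega))
    rw [capq, if_pos (by omega)] at b1
    rwa [capT, if_pos (by omega)]
  rw [Finset.sum_add_distrib, Finset.sum_Ico_add' (cT g0) h1 h2 1] at d6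
  rw [Finset.sum_eq_sum_Ico_succ_bot (show h1 < h2 + 1 by omega)]
  linarith

theorem hM_T {g0 h1 h2 : ℕ} (h0 : 200000 ≤ g0) (a1 : g0 ≤ h1) (a2 : h1 < h2) :
    ET g0 h1 + ∑ k ∈ Ico g0 h2,
      tb (sgq k) (tauq k) (4100 / ((k : ℝ) + 3) ^ 3) (dq k) (wq h2) (wq h1) +
      ∑ k ∈ Ico h1 h2, capT g0 k ≤ ∑ k ∈ Ico h1 (h2 + 1), cT g0 k := by
  rcases le_or_gt (g0 + 18) h1 with b1 | b1
  · rw [ET, if_neg (by omega)]
    exact steady h0 b1 a2
  have e1 := ET_le h0 a1
  have z : ∀ h, h ≤ g0 + 18 → ∑ k ∈ Ico h1 h, capT g0 k = 0 := fun h hh =>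
    Finset.sum_eq_zero fun k hk => if_neg (by have := (Finset.mem_Ico.1 hk).2; omega)
  have s : ∀ h, h1 < h → cT g0 h1 ≤ ∑ k ∈ Ico h1 h, cT g0 k := fun h hh =>
    Finset.single_le_sum (fun k _ => cT_nonneg g0 k) (Finset.mem_Ico.2 ⟨le_rfl, hh⟩)
  rcases le_or_gt h2 (g0 + 18) with b2 | b2
  · rw [z h2 b2, Finset.sum_eq_zero fun k hk => ?_]
    · linarith [s (h2 + 1) (by omega)]
    · refine if_neg fun hc => ?_
      have := tau_lt h0 (Finset.mem_Ico.1 hk).1
      have := wq_anti.antitone b2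
      linarith [hc.2]
  · have c1 := steady h0 le_rfl b2
    have c2 : 0 ≤ Eq' mR (g0 + 18) := by
      rw [Eq', if_neg (by omega)]
      exact le_min (by norm_num [mR]) (Real.sqrt_nonneg _)
    rw [← Finset.sum_Ico_consecutive (capT g0) b1.le b2.le, z _ le_rfl,
      ← Finset.sum_Ico_consecutive (cT g0) b1.le (show g0 + 18 ≤ h2 + 1 by omega),
      Finset.sum_congr rfl fun k hk => tb_hi (hi' := wq (g0 + 18))
        (sg_le_tau (by have := (Finset.mem_Ico.1 hk).1; omega))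
        ((tau_lt h0 (Finset.mem_Ico.1 hk).1).trans (wq_anti b1))
        (tau_lt h0 (Finset.mem_Ico.1 hk).1)]
    linarith [s _ b1]

theorem St.ok {n g0 : ℕ} (Z : St n g0) : (gT n g0).OK := by
  have big := Z.big
  have np := Z.pos
  have ap : ∀ g, 0 < aT n g := fun g => lt_of_lt_of_le (by omega) (n_le_aT n g)
  have pa : ∀ g, area ((gT n g0).placed g) = 1 - 1 / (n : ℝ) + area (plT (gT n g0) g) := by
    intro g
    rw [GD.placed, area_add]
    simp [gT, plT]
  have cast : ∀ g : ℕ, g0 ≤ g → (5800 : ℝ) ≤ g ∧ wq (g - 1) = 4100 / ((g : ℝ) - 1) ^ 3 ∧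
      wq (g + 1) = 4100 / ((g : ℝ) + 1) ^ 3 ∧
      1 / (((g : ℝ) + 21) ^ 3 / 4100 + 19) ≤ 1 / ((aT n (g + 18) + 18 : ℕ) : ℝ) ∧
      1 / (aT n g : ℝ) ≤ 4100 / ((g : ℝ) + 3) ^ 3 := by
    intro g hg
    refine ⟨by exact_mod_cast (show 5800 ≤ g by omega), ?_, ?_, ?_, ?_⟩
    · rw [wq_pos' (by omega), Nat.cast_sub (by omega), Nat.cast_one]
    · rw [wq_pos' (by omega)]; push_cast; rfl
    · exact one_div_le_one_div_of_le (by positivity) (Z.B_le hg)
    · have := one_div_le_one_div_of_le (by positivity) (aT_ge n g)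
      rwa [one_div_div] at this
  refine
    { hw := wq_anti, hw0 := wq_pos, hlim := wq_lim, hu := by norm_num [gT], hu1 := by norm_num [gT],
      hΛ := by norm_num [gT], hMu := ?_, hN := by norm_num [gT], hr := ?_,
      hcap := fun h => ?_, ha := fun g _ => ap g, hab := fun g _ => (bT_spec n g).1,
      hB := fun g _ => ?_, hσ0 := fun g _ => ?_, hσ := fun g hg => ?_, hτ := fun g hg => ?_,
      hτB := fun g hg => ?_, he := fun g hg => (cast g hg).2.2.2.2, hd := fun g hg => ?_,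
      hκ0 := fun g _ => ?_, hκ := fun g hg => ?_, hκa := fun g hg => ?_,
      hbook := fun g hg h a1 a2 => ?_, huw := fun g hg => ?_, hE0 := fun g => ?_,
      hE := fun g hg x x0 x1 x2 => ?_, hup := fun g hg => ?_, hlo := fun g hg => ?_,
      hAR := fun g hg H hH => ?_, hmain := fun g hg => ?_, hc := fun g hg => ?_,
      hG := fun g hg => ?_, hGs := fun g hg => ?_, hEc := fun h hh => ET_le big hh,
      hM := fun h1 h2 a1 a2 => ?_ }
  · change (213 : ℝ) / 2000 < 39 / 250 * Real.log (2 * (99 / 100))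
    rw [Real.log_mul (by norm_num) (by norm_num)]
    have h1 := Real.log_two_gt_d9
    have h2 := Real.one_sub_inv_le_log_of_pos (show (0 : ℝ) < 99 / 100 by norm_num)
    norm_num at h1 h2 ⊢
    linarith
  · change 2 ≤ (n : ℝ) / 900
    have : (1800 : ℝ) ≤ n := by exact_mod_cast np
    linarith
  · change 0 ≤ capT g0 h
    unfold capT; split_ifs <;> positivity
  · change bT n g + mT n g * 18 ≤ aT n (g + 18) + 18
    rw [bT_next n]; exact (bT_spec n _).2.1.le
  · change 0 < sgq g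
    unfold sgq; positivity
  · obtain ⟨c1, c2, c3, c4, c5⟩ := cast g hg
    change sgq g ≤ wq (g + 1) - 1 / (aT n g : ℝ)
    have := p_sigma c1
    unfold sgq; linarith
  · obtain ⟨c1, c2, c3, c4, c5⟩ := cast g hg
    change wq (g - 1) - 1 / ((aT n (g + 18) + 18 : ℕ) : ℝ) ≤ tauq g
    have := p_tau c1
    unfold tauq; linarith
  · obtain ⟨c1, c2, c3, c4, c5⟩ := cast g hg
    exact (p_tauB c1).trans c4
  · change ((aT n (g + 18) + 18 : ℕ) : ℝ) / ((18 : ℕ) : ℝ) ≤ dq g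
    have := Z.B_le hg
    unfold dq; push_cast at this ⊢; linarith
  · change 0 ≤ 6601 / 100 / (g : ℝ)
    positivity
  · obtain ⟨c1, c2, c3, c4, c5⟩ := cast g hg
    change tauq g ≤ 6601 / 100 / (g : ℝ) * wq (g + 1)
    rw [c3]; exact p_kappa c1
  · obtain ⟨c1, _⟩ := cast g hg
    change 6601 / 100 / ((g + 1 : ℕ) : ℝ) ≤ 6601 / 100 / (g : ℝ)
    push_cast
    exact div_le_div_of_nonneg_left (by norm_num) (by linarith) (by linarith)
  · obtain ⟨c1, c2, c3, c4, c5⟩ := cast g hg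
    change g0 ≤ g at hg
    have hh := win_T big a1 (wq_anti.antitone (show g0 - 1 ≤ g - 1 by omega))
    change _ ≤ capT g0 h
    rw [show capT g0 h = capq h by rw [capT, capq, if_pos hh, if_pos (by omega)]]
    refine bookable_of (x := sgq g) (wq_pos _) (by unfold sgq; positivity) ?_ (by omega) a2
    rw [c2]; exact p_cc c1
  · obtain ⟨c1, c2, c3, c4, c5⟩ := cast g hg
    change 99 / 100 * wq (g - 1) ≤ wq (g + 1)
    rw [c2, c3]; exact p_uw c1
  · change 0 ≤ ET g0 g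
    unfold ET Eq'; split_ifs
    · exact le_rfl
    · exact le_rfl
    · exact le_min (by norm_num [mR]) (Real.sqrt_nonneg _)
  · obtain ⟨c1, c2, c3, c4, c5⟩ := cast g hg
    change x ≤ ET g0 (g + 1)
    change g0 ≤ g at hg
    unfold ET Eq'
    rw [if_neg (by omega), if_neg (by omega)]
    refine le_min x1 (Real.le_sqrt_of_sq_le ?_)
    push_cast
    rw [show (g : ℝ) + 1 + 2 = g + 3 by ring]
    exact x2.trans c5
  · obtain ⟨S, h1, h2⟩ := Z.pl_spec hg
    rw [pa, h1]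
    have h3 := area_tail (show 1 ≤ n by omega) (n_le_aT n g)
    have h4 := area_items_mono (S := Ico n (aT n g)) (T := S) fun j hj => by
      rw [h2]; rw [Finset.mem_Ico] at hj
      have := (bT_spec n (g + (j + 17 * g) % 18)).1
      have := aT_mono n (show g ≤ g + (j + 17 * g) % 18 by omega)
      omega
    change _ ≤ 1 / (aT n g : ℝ)
    linarith
  · obtain ⟨S, h1, h2⟩ := Z.pl_spec (show g0 ≤ g + 1 from Nat.le_succ_of_le hg)
    rw [pa, h1]
    have h3 := area_tail (show 1 ≤ n by omega)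
      ((n_le_aT n (g + 18)).trans (Nat.le_add_right _ 18))
    have h4 := area_items_mono (S := S) (T := Ico n (aT n (g + 18) + 18)) fun j hj => by
      rw [h2] at hj; rw [Finset.mem_Ico]
      have := (bT_spec n (g + 1 + (j + 17 * (g + 1)) % 18)).2.1
      have := aT_mono n (show g + 1 + (j + 17 * (g + 1)) % 18 ≤ g + 18 by omega)
      omega
    change 1 / ((aT n (g + 18) + 18 : ℕ) : ℝ) ≤ _
    linarith
  · obtain ⟨c1, c2, c3, c4, c5⟩ := cast g hg
    change g0 ≤ g at hg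
    change wq (g + 1) * cT g0 (g + 1) +
      ∑ k ∈ Ico (g + 1) H, wq k * (cT g0 (k + 1) - capT g0 k) ≤
      21 / 25 * (4100 / (g : ℝ) ^ 3) + 12 * (4100 / ((g : ℝ) + 1) ^ 4)
    let η : ℕ → ℝ := fun k => 21 / 25 * (4100 / ((k : ℝ) - 1) ^ 3) +
      12 / 25 * (4100 / ((g : ℝ) + 1) ^ 4) * ((g0 + 18 - k : ℕ) : ℝ)
    have d1 : ∀ k ∈ Ico (g + 1) H,
        wq k * (cT g0 (k + 1) - capT g0 k) ≤ - η (k + 1) - - η k := by
      intro k hk
      have hk1 := (Finset.mem_Ico.1 hk).1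
      have k1 : (g : ℝ) + 1 ≤ k := by exact_mod_cast hk1
      have k2 := p_tel4 (x := k) (by linarith)
      have k3 := cT_le g0 (g := k + 1) (by omega)
      have k4 : 3 / ((k + 1 : ℕ) : ℝ) ≤ 3 / (k : ℝ) := by
        push_cast; exact div_le_div_of_nonneg_left (by norm_num) (by linarith) (by linarith)
      have k5 : 4100 / (k : ℝ) ^ 4 ≤ 4100 / ((g : ℝ) + 1) ^ 4 :=
        div_le_div_of_nonneg_left (by norm_num) (by positivity)
          (pow_le_pow_left₀ (by linarith) k1 4)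
      have k0 : (0 : ℝ) < k := by linarith
      have k6 : 4100 / (k : ℝ) ^ 3 * (3 / (k : ℝ)) = 4100 * (3 / (k : ℝ) ^ 4) := by field_simp
      have k7 : 4100 / (k : ℝ) ^ 3 * (12 / 25 / (k : ℝ)) = 4100 * 4 / 25 * (3 / (k : ℝ) ^ 4) := by
        field_simp; ring
      have k8 : 4100 / (k : ℝ) ^ 3 * cT g0 (k + 1) ≤ 4100 / (k : ℝ) ^ 3 * (3 / (k : ℝ)) :=
        mul_le_mul_of_nonneg_left (k3.trans k4) (by positivity)
      have k9 : 4100 / (k : ℝ) ^ 4 = 4100 / 3 * (3 / (k : ℝ) ^ 4) := by ring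
      have e1 : 4100 / ((k : ℝ) - 1) ^ 3 = 4100 * (1 / ((k : ℝ) - 1) ^ 3) := by ring
      have e2 : 4100 / (k : ℝ) ^ 3 = 4100 * (1 / (k : ℝ) ^ 3) := by ring
      rw [wq_pos' (by omega), mul_sub]
      simp only [η, capT]
      push_cast
      rw [add_sub_cancel_right]
      split_ifs with h5
      · rw [show g0 + 17 - k = 0 by omega, show g0 + 18 - k = 0 by omega]
        push_cast; linarith
      · rw [show g0 + 18 - k = (g0 + 17 - k) + 1 by omega]
        push_cast; linarith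
    have d2 := Finset.sum_le_sum d1
    rw [Finset.sum_Ico_sub (fun k => - η k) hH] at d2
    have d3 : 0 ≤ η H := by
      have : (g : ℝ) + 1 ≤ H := by exact_mod_cast hH
      have : (0 : ℝ) < (H : ℝ) - 1 := by linarith
      simp only [η]; positivity
    have d4 : η (g + 1) ≤ 21 / 25 * (4100 / (g : ℝ) ^ 3) + 9 * (4100 / ((g : ℝ) + 1) ^ 4) := by
      simp only [η]
      push_cast
      rw [add_sub_cancel_right]
      have : ((g0 + 17 - g : ℕ) : ℝ) ≤ 18 := by
        exact_mod_cast (by omega : g0 + 17 - g ≤ 18)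
      have : (0 : ℝ) ≤ 4100 / ((g : ℝ) + 1) ^ 4 := by positivity
      nlinarith
    have d5 : wq (g + 1) * cT g0 (g + 1) ≤ 3 * (4100 / ((g : ℝ) + 1) ^ 4) := by
      have := cT_le g0 (g := g + 1) (by omega)
      push_cast at this
      rw [c3]
      calc _ ≤ 4100 / ((g : ℝ) + 1) ^ 3 * (3 / ((g : ℝ) + 1)) :=
            mul_le_mul_of_nonneg_left this (by positivity)
        _ = _ := by field_simp
    linarith
  · obtain ⟨c1, c2, c3, c4, c5⟩ := cast g hg
    change g0 ≤ g at hg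
    have hg' : (g0 : ℝ) ≤ g := by exact_mod_cast hg
    have hb : (200000 : ℝ) ≤ g0 := by exact_mod_cast big
    have := q_main (x := g) (r := (n : ℝ) / 900) (by linarith) (by
      have := pow_le_pow_left₀ (by positivity) (show (g0 : ℝ) + 21 ≤ g + 21 by linarith) 3
      linarith [Z.n_le])
    change 4 * ((n : ℝ) / 900) * wq (g + 1) ^ 2 ≤ 1 / ((aT n (g + 18) + 18 : ℕ) : ℝ) -
      (21 / 25 * (4100 / (g : ℝ) ^ 3) + 12 * (4100 / ((g : ℝ) + 1) ^ 4)) - wq (g + 1) * (213 / 2000)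
    rw [c3]; linarith
  · obtain ⟨c1, _⟩ := cast g hg
    change g0 ≤ g at hg
    change cT g0 g ≤ ∑ i ∈ Ico 0 (mT n g), 1 / (((bT n g + i * 18 : ℕ) : ℝ) + 1)
    refine max_le (Finset.sum_nonneg fun i _ => by positivity) ?_
    have d1 := bT_next n g
    have d0 : (0 : ℝ) < bT n (g + 18) := by
      exact_mod_cast (ap _).trans_le (bT_spec n (g + 18)).1
    have d2 : ∀ i ∈ Ico 0 (mT n g), 1 / (bT n (g + 18) : ℝ) ≤ 1 / (((bT n g + i * 18 : ℕ) : ℝ) + 1) := by
      intro i hi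
      have := (Finset.mem_Ico.1 hi).2
      refine one_div_le_one_div_of_le (by positivity) ?_
      have : bT n g + i * 18 + 1 ≤ bT n (g + 18) := by omega
      exact_mod_cast this
    have d3 := Finset.card_nsmul_le_sum _ _ _ d2
    rw [Nat.card_Ico, Nat.sub_zero, nsmul_eq_mul] at d3
    refine le_trans ?_ d3
    have d4 : (bT n g : ℝ) + mT n g * 18 = bT n (g + 18) := by exact_mod_cast d1
    have d5 : (mT n g : ℝ) * (1 / (bT n (g + 18) : ℝ)) = (1 - bT n g / (bT n (g + 18) : ℝ)) / 18 := by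
      field_simp; linarith
    rw [d5]
    have d6 : (bT n g : ℝ) ≤ aT n g + 18 := by exact_mod_cast (bT_spec n g).2.1.le
    have d7 := Z.a_le g
    have d8 := aT_ge n (g + 18)
    have d9 : (aT n (g + 18) : ℝ) ≤ bT n (g + 18) := by exact_mod_cast (bT_spec n (g + 18)).1
    push_cast at d8
    rw [show (g : ℝ) + 18 + 3 = g + 21 by ring] at d8
    have d10 : (bT n g : ℝ) / (bT n (g + 18) : ℝ) ≤
        (max (((g0 : ℝ) + 21) ^ 3) (((g : ℝ) + 3) ^ 3) + 77900) / ((g : ℝ) + 21) ^ 3 := by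
      rw [show (bT n g : ℝ) / (bT n (g + 18) : ℝ) = (4100 * bT n g) / (4100 * bT n (g + 18)) by field_simp]
      exact div_le_div₀ (by positivity) (by linarith) (by positivity) (by linarith)
    linarith
  · obtain ⟨c1, c2, _⟩ := cast g hg
    change g0 ≤ g at hg
    change 3 * ∑ i ∈ Ico 0 (mT n g), (wq (g - 1) - 1 / ((bT n g + i * 18 : ℕ) : ℝ)) +
      6601 / 100 / (g : ℝ) * capT g0 g ≤ 384 / ((g : ℝ) - 1) - 384 / (g : ℝ)
    refine le_trans (add_le_add (mul_le_mul_of_nonneg_left ?_ (by norm_num))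
      (mul_le_mul_of_nonneg_left ?_ (by positivity))) (p_G c1)
    · have d4 : (bT n g : ℝ) + mT n g * 18 = bT n (g + 18) := by exact_mod_cast bT_next n g
      have d6 : (aT n g : ℝ) ≤ bT n g := by exact_mod_cast (bT_spec n g).1
      have d7 := aT_ge n g
      have d8 := Z.B_le hg
      have d9 : (bT n (g + 18) : ℝ) ≤ ((aT n (g + 18) + 18 : ℕ) : ℝ) := by
        exact_mod_cast (bT_spec n (g + 18)).2.1.le
      rw [c2]
      set A := ((g : ℝ) + 3) ^ 3 / 4100 with hA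
      set B := ((g : ℝ) + 21) ^ 3 / 4100 + 19
      set b := (bT n g : ℝ)
      set b' := (bT n (g + 18) : ℝ)
      set w := 4100 / ((g : ℝ) - 1) ^ 3 with hw
      have A0 : 0 < A := by positivity
      have m0 : (0 : ℝ) ≤ mT n g := Nat.cast_nonneg _
      have wA : 1 ≤ w * A := by
        have : (0 : ℝ) < (g : ℝ) - 1 := by linarith
        rw [hw, hA, div_mul_div_comm, le_div_iff₀ (by positivity)]
        have := pow_le_pow_left₀ this.le (show (g : ℝ) - 1 ≤ g + 3 by linarith) 3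
        linarith
      have w0 : 0 < w := by
        have : (0 : ℝ) < (g : ℝ) - 1 := by linarith
        positivity
      have e1 := amhm (b := b) (c := (b + b') / 2) (N := 18) (mT n g) (by linarith) (by norm_num)
        (by linarith) (by linarith)
      rw [Finset.sum_sub_distrib, Finset.sum_const, Nat.card_Ico, Nat.sub_zero, nsmul_eq_mul,
        ← Finset.range_eq_Ico]
      push_cast
      have e2 : (mT n g : ℝ) = (b' - b) / 18 := by linarith
      have e3 : (b' - b) * (w - 2 / (b + b')) ≤ (b' - A) * (w - 2 / (A + b')) := by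
        rw [← sub_nonneg]
        have p1 : 0 < b + b' := by linarith
        have p2 : 0 < A + b' := by linarith
        have : (b' - A) * (w - 2 / (A + b')) - (b' - b) * (w - 2 / (b + b')) =
            (b - A) * (w * ((A + b') * (b + b')) - 4 * b') / ((A + b') * (b + b')) := by
          field_simp; ring
        rw [this]
        refine div_nonneg (mul_nonneg (by linarith) ?_) (by positivity)
        have q1 : 4 * A * b' ≤ (A + b') * (b + b') := by nlinarith [sq_nonneg (A - b')]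
        have q2 := mul_le_mul_of_nonneg_left q1 w0.le
        nlinarith
      have e4 : (b' - A) * (w - 2 / (A + b')) ≤ (B - A) * (w - 2 / (A + B)) := by
        rw [← sub_nonneg]
        have p1 : 0 < A + B := by linarith
        have p2 : 0 < A + b' := by linarith
        have : (B - A) * (w - 2 / (A + B)) - (b' - A) * (w - 2 / (A + b')) =
            (B - b') * (w * ((A + B) * (A + b')) - 4 * A) / ((A + B) * (A + b')) := by
          field_simp; ring
        rw [this]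
        refine div_nonneg (mul_nonneg (by linarith) ?_) (by positivity)
        have q1 : (2 * A) * (2 * A) ≤ (A + B) * (A + b') :=
          mul_le_mul (by linarith) (by linarith) (by linarith) (by linarith)
        have q2 := mul_le_mul_of_nonneg_left q1 w0.le
        nlinarith
      have e5 : (mT n g : ℝ) / ((b + b') / 2) = (b' - b) / 18 * (2 / (b + b')) := by
        rw [e2]; field_simp
      rw [e5] at e1
      rw [e2]
      linarith
    · unfold capT; split_ifs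
      · exact le_rfl
      · positivity
  · change g0 ≤ g at hg
    change (1 : ℝ) / 10 + ∑ k ∈ Ico g0 g, (384 / ((k : ℝ) - 1) - 384 / (k : ℝ)) ≤ 213 / 2000
    have d1 := Finset.sum_Ico_sub (fun k : ℕ => - (384 / ((k : ℝ) - 1))) hg
    have d2 : ∑ k ∈ Ico g0 g, (384 / ((k : ℝ) - 1) - 384 / (k : ℝ)) =
        ∑ k ∈ Ico g0 g, (- (384 / (((k + 1 : ℕ) : ℝ) - 1)) - - (384 / ((k : ℝ) - 1))) :=
      Finset.sum_congr rfl fun k _ => by push_cast; rw [add_sub_cancel_right]; ring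
    rw [d2, d1]
    have hg' : (g0 : ℝ) ≤ g := by exact_mod_cast hg
    have hb : (200000 : ℝ) ≤ g0 := by exact_mod_cast big
    have : 0 ≤ 384 / ((g : ℝ) - 1) := div_nonneg (by norm_num) (by linarith)
    have : 384 / ((g0 : ℝ) - 1) ≤ 1 / 200 := by
      rw [div_le_iff₀ (by linarith)]; linarith
    linarith
  · have d1 := hM_T big a1 a2
    change ET g0 h1 + 0 + ∑ k ∈ Ico g0 h2,
      tb (sgq k) (tauq k) (4100 / ((k : ℝ) + 3) ^ 3) (dq k) (wq h2) (wq h1) +
      ∑ k ∈ Ico h1 h2, capT g0 k ≤ ∑ k ∈ Ico h1 (h2 + 1), cT g0 k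
    linarith

theorem exists_St {n : ℕ} (hn : 2 * 10 ^ 12 ≤ n) : ∃ g0, St n g0 := by
  have ex : ∃ g, n < acq g := ⟨n + 4100, by
    unfold acq
    rw [Nat.lt_iff_add_one_le, Nat.le_div_iff_mul_le (by norm_num)]
    nlinarith [Nat.zero_le (n ^ 2), Nat.zero_le (n ^ 3)]⟩
  have h1 := Nat.find_spec ex
  have h2 : 200018 ≤ Nat.find ex := by
    by_contra hc
    have h3 := acq_mono (show Nat.find ex ≤ 200017 by omega)
    have h4 : acq 200017 ≤ 2 * 10 ^ 12 := by norm_num [acq]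
    omega
  have h3 := Nat.find_min ex (show Nat.find ex - 1 < Nat.find ex by omega)
  refine ⟨Nat.find ex - 18, by omega, ?_, ?_⟩
  · rw [show Nat.find ex - 18 + 17 = Nat.find ex - 1 by omega]; omega
  · rw [show Nat.find ex - 18 + 18 = Nat.find ex by omega]; omega

theorem finite_T {n : ℕ} (hn : 2 * 10 ^ 12 ≤ n) {A B : ℝ} (hA : 0 < A) (hB : 0 < B)
    (hAB : A * B = 1 / (n : ℝ)) (hs : A + B ≤ 1 / 30) (N : ℕ) :
    Fits (Set.Ioo 0 A ×ˢ Set.Ioo 0 B) (∑ j ∈ Ico n N, ({item j} : MS)) := by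
  obtain ⟨g0, Z⟩ := exists_St hn
  have n0 : (2 * 10 ^ 12 : ℝ) ≤ n := by exact_mod_cast hn
  have e : A * B * n = 1 := by rw [hAB]; field_simp
  have r : ∀ X Y : ℝ, 0 < X → 0 < Y → X * Y * n = 1 → X + Y ≤ 1 / 30 → X ≤ (n : ℝ) / 900 * Y := by
    intro X Y hX hY h1 h2
    refine le_of_mul_le_mul_left ?_ hX
    nlinarith
  have hg : g0 ≤ g0 + N := Nat.le_add_right _ _
  have h := fitsT Z.ok (fun _ _ => le_rfl) hA hB (by simp [gT, hAB])
    (show 3 * (A + B) ≤ 1 / 10 by linarith) (r A B hA hB e hs)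
    (r B A hB hA (by linarith) (by linarith)) (by
      change min A B ≤ mR
      by_contra hc
      rw [not_le, lt_min_iff] at hc
      have m1 : (1 : ℝ) / 1000000 ≤ mR := by norm_num [mR]
      have m2 : 1 / 1000000 * (1 / 1000000) ≤ A * B :=
        mul_le_mul (by linarith) (by linarith) (by norm_num) hA.le
      nlinarith) (g := g0 + N) hg
  obtain ⟨S, h1, h2⟩ := Z.pl_spec hg
  rw [h1] at h
  have sub : Ico n N ⊆ S := fun j hj => by
    rw [h2]; rw [Finset.mem_Ico] at hj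
    have a1 := (bT_spec n (g0 + N + (j + 17 * (g0 + N)) % 18)).1
    have a2 := aT_mono n (show g0 + N ≤ g0 + N + (j + 17 * (g0 + N)) % 18 by omega)
    have a3 : N ≤ aT n (g0 + N) := by
      refine le_trans ?_ (le_max_right _ _)
      refine le_trans ?_ (acq_mono (show 5800 + N ≤ g0 + N by have := Z.big; omega))
      unfold acq
      rw [Nat.le_div_iff_mul_le (by norm_num)]
      nlinarith [Nat.zero_le (N ^ 2), Nat.zero_le (N ^ 3)]
    omega
  rw [← Finset.sum_sdiff sub, add_comm] at h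
  obtain ⟨V, hV, h3, _⟩ := fits_add.1 h
  exact h3.mono hV

theorem sep_of_disj {x1 x2 y1 y2 x1' x2' y1' y2' : ℝ} (h1 : x1 < x2) (h2 : y1 < y2)
    (h3 : x1' < x2') (h4 : y1' < y2')
    (h : Disjoint (Set.Ioo x1 x2 ×ˢ Set.Ioo y1 y2) (Set.Ioo x1' x2' ×ˢ Set.Ioo y1' y2')) :
    x2 ≤ x1' ∨ x2' ≤ x1 ∨ y2 ≤ y1' ∨ y2' ≤ y1 := by
  by_contra hn
  simp only [not_or, not_le] at hn
  obtain ⟨a, b, c, d⟩ := hn
  rw [Set.disjoint_iff_inter_eq_empty, Set.prod_inter_prod, Set.Ioo_inter_Ioo, Set.Ioo_inter_Ioo,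
    Set.prod_eq_empty_iff, Set.Ioo_eq_empty_iff, Set.Ioo_eq_empty_iff] at h
  rcases h with h | h
  · exact h (max_lt (lt_min h1 b) (lt_min a h3))
  · exact h (max_lt (lt_min h2 d) (lt_min c h4))

/-- position and sides of the rectangle of index `j` inside the `A × B` box -/
def Good (A B : ℝ) (j : ℕ) (p : ℝ × ℝ × ℝ × ℝ) : Prop :=
  ((p.2.2.1 = 1 / (j : ℝ) ∧ p.2.2.2 = 1 / ((j : ℝ) + 1)) ∨
    (p.2.2.1 = 1 / ((j : ℝ) + 1) ∧ p.2.2.2 = 1 / (j : ℝ))) ∧
  0 ≤ p.1 ∧ p.1 + p.2.2.1 ≤ A ∧ 0 ≤ p.2.1 ∧ p.2.1 + p.2.2.2 ≤ B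

def Sep (p q : ℝ × ℝ × ℝ × ℝ) : Prop :=
  p.1 + p.2.2.1 ≤ q.1 ∨ q.1 + q.2.2.1 ≤ p.1 ∨ p.2.1 + p.2.2.2 ≤ q.2.1 ∨ q.2.1 + q.2.2.2 ≤ p.2.1

theorem coords {n N : ℕ} (hn : 1 ≤ n) {A B : ℝ} (hA : 0 < A) (hB : 0 < B)
    (h : Fits (Set.Ioo 0 A ×ˢ Set.Ioo 0 B) (∑ j ∈ Ico n N, ({item j} : MS))) :
    ∃ p : ℕ → ℝ × ℝ × ℝ × ℝ, (∀ j, p j ∈ Set.Icc (0 : ℝ × ℝ × ℝ × ℝ) (A, B, A, B)) ∧
      (∀ j ∈ Ico n N, Good A B j (p j)) ∧
      ∀ i ∈ Ico n N, ∀ j ∈ Ico n N, i ≠ j → Sep (p i) (p j) := by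
  obtain ⟨b, hb1, hb2⟩ := pairwise_of_fits _ _ _ h
  have key : ∀ j, ∃ p : ℝ × ℝ × ℝ × ℝ, p ∈ Set.Icc (0 : ℝ × ℝ × ℝ × ℝ) (A, B, A, B) ∧
      (j ∈ Ico n N → Good A B j p ∧ 0 < p.2.2.1 ∧ 0 < p.2.2.2 ∧
        b j = Set.Ioo p.1 (p.1 + p.2.2.1) ×ˢ Set.Ioo p.2.1 (p.2.1 + p.2.2.2)) := by
    intro j
    by_cases hj : j ∈ Ico n N
    · have j0 : (0 : ℝ) < j := by
        have := (Finset.mem_Ico.1 hj).1
        exact_mod_cast (by omega : 0 < j)
      have p1 : 0 < 1 / (j : ℝ) := by positivity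
      have p2 : 0 < 1 / ((j : ℝ) + 1) := by positivity
      have aux : ∀ x y u v : ℝ, 0 < u → 0 < v →
          Set.Ioo x (x + u) ×ˢ Set.Ioo y (y + v) ⊆ Set.Ioo 0 A ×ˢ Set.Ioo 0 B →
          0 ≤ x ∧ x + u ≤ A ∧ 0 ≤ y ∧ y + v ≤ B := by
        intro x y u v hu hv hs
        rw [Set.prod_subset_prod_iff' ⟨(x + u / 2, y + v / 2), by
          simp only [Set.mem_prod, Set.mem_Ioo]
          exact ⟨⟨by linarith, by linarith⟩, by linarith, by linarith⟩⟩,
          Set.Ioo_subset_Ioo_iff (by linarith), Set.Ioo_subset_Ioo_iff (by linarith)] at hs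
        exact ⟨hs.1.1, hs.1.2, hs.2.1, hs.2.2⟩
      obtain ⟨⟨x, y, e | e⟩, hs⟩ := hb1 j hj
      · have := aux x y _ _ p1 p2 (by rw [e] at hs; exact hs)
        refine ⟨(x, y, 1 / (j : ℝ), 1 / ((j : ℝ) + 1)), ?_, fun _ =>
          ⟨⟨Or.inl ⟨rfl, rfl⟩, this⟩, p1, p2, e⟩⟩
        simp only [Set.mem_Icc, Prod.le_def, Prod.fst_zero, Prod.snd_zero]
        obtain ⟨t1, t2, t3, t4⟩ := this
        refine ⟨⟨t1, t3, p1.le, p2.le⟩, ?_, ?_, ?_, ?_⟩ <;> linarith
      · have := aux x y _ _ p2 p1 (by rw [e] at hs; exact hs)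
        refine ⟨(x, y, 1 / ((j : ℝ) + 1), 1 / (j : ℝ)), ?_, fun _ =>
          ⟨⟨Or.inr ⟨rfl, rfl⟩, this⟩, p2, p1, e⟩⟩
        simp only [Set.mem_Icc, Prod.le_def, Prod.fst_zero, Prod.snd_zero]
        obtain ⟨t1, t2, t3, t4⟩ := this
        refine ⟨⟨t1, t3, p2.le, p1.le⟩, ?_, ?_, ?_, ?_⟩ <;> linarith
    · refine ⟨0, ?_, fun h => absurd h hj⟩
      simp only [Set.mem_Icc, Prod.le_def, Prod.fst_zero, Prod.snd_zero]
      exact ⟨⟨le_rfl, le_rfl, le_rfl, le_rfl⟩, hA.le, hB.le, hA.le, hB.le⟩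
  choose p hp using key
  refine ⟨p, fun j => (hp j).1, fun j hj => ((hp j).2 hj).1, fun i hi j hj hij => ?_⟩
  obtain ⟨_, a1, a2, a3⟩ := (hp i).2 hi
  obtain ⟨_, b1, b2, b3⟩ := (hp j).2 hj
  have := hb2 i hi j hj hij
  rw [a3, b3] at this
  exact sep_of_disj (by linarith) (by linarith) (by linarith) (by linarith) this

theorem limit {n : ℕ} {A B : ℝ}
    (h : ∀ N, ∃ p : ℕ → ℝ × ℝ × ℝ × ℝ, (∀ j, p j ∈ Set.Icc (0 : ℝ × ℝ × ℝ × ℝ) (A, B, A, B)) ∧
      (∀ j ∈ Ico n N, Good A B j (p j)) ∧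
      ∀ i ∈ Ico n N, ∀ j ∈ Ico n N, i ≠ j → Sep (p i) (p j)) :
    ∃ p : ℕ → ℝ × ℝ × ℝ × ℝ, (∀ j, n ≤ j → Good A B j (p j)) ∧
      ∀ i j, n ≤ i → n ≤ j → i ≠ j → Sep (p i) (p j) := by
  let C : ℕ → Set (ℕ → ℝ × ℝ × ℝ × ℝ) := fun N =>
    {p | (∀ j, p j ∈ Set.Icc (0 : ℝ × ℝ × ℝ × ℝ) (A, B, A, B)) ∧
      (∀ j ∈ Ico n N, Good A B j (p j)) ∧
      ∀ i ∈ Ico n N, ∀ j ∈ Ico n N, i ≠ j → Sep (p i) (p j)}
  have cl : ∀ N, IsClosed (C N) := by
    intro N
    simp only [C, Set.ofPred_and, Set.ofPred_forall]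
    refine (isClosed_iInter fun j => isClosed_Icc.preimage (continuous_apply j)).inter
      ((isClosed_iInter fun j => isClosed_iInter fun _ => ?_).inter
        (isClosed_iInter fun i => isClosed_iInter fun _ => isClosed_iInter fun j =>
          isClosed_iInter fun _ => isClosed_iInter fun _ => ?_))
    · simp only [Good, Set.ofPred_and, Set.ofPred_or]
      refine (((isClosed_eq ?_ ?_).inter (isClosed_eq ?_ ?_)).union
        ((isClosed_eq ?_ ?_).inter (isClosed_eq ?_ ?_))).inter ((isClosed_le ?_ ?_).inter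
        ((isClosed_le ?_ ?_).inter ((isClosed_le ?_ ?_).inter (isClosed_le ?_ ?_)))) <;> fun_prop
    · simp only [Sep, Set.ofPred_or]
      refine (isClosed_le ?_ ?_).union ((isClosed_le ?_ ?_).union ((isClosed_le ?_ ?_).union
        (isClosed_le ?_ ?_))) <;> fun_prop
  have cp : IsCompact (C 0) :=
    (isCompact_univ_pi fun _ : ℕ => isCompact_Icc (a := (0 : ℝ × ℝ × ℝ × ℝ))
      (b := (A, B, A, B))).of_isClosed_subset (cl 0) fun p hp j _ => hp.1 j
  obtain ⟨p, hp⟩ := IsCompact.nonempty_iInter_of_sequence_nonempty_isCompact_isClosed C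
    (fun N p hp => ⟨hp.1, fun j hj => hp.2.1 j (Finset.Ico_subset_Ico le_rfl (by omega) hj),
      fun i hi j hj => hp.2.2 i (Finset.Ico_subset_Ico le_rfl (by omega) hi) j
        (Finset.Ico_subset_Ico le_rfl (by omega) hj)⟩) h cp cl
  rw [Set.mem_iInter] at hp
  refine ⟨p, fun j hj => (hp (j + 1)).2.1 j (Finset.mem_Ico.2 ⟨hj, by omega⟩),
    fun i j hi hj => (hp (i + j + 1)).2.2 i (Finset.mem_Ico.2 ⟨hi, by omega⟩) j
      (Finset.mem_Ico.2 ⟨hj, by omega⟩)⟩

/-- For every `n₀ ≥ 2·10¹²` the rectangles `1/n × 1/(n+1)`, `n ≥ n₀`, of total area `1/n₀`, pack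
perfectly into every rectangle `A × B` of area `1/n₀` with `A + B ≤ 1/30`. -/
theorem result (n₀ : ℕ) (hn : 2 * 10 ^ 12 ≤ n₀) (A B : ℝ) (hA : 0 < A) (hB : 0 < B)
    (hAB : A * B = 1 / (n₀ : ℝ)) (hs : A + B ≤ 1 / 30) :
    ∃ x y a b : ℕ → ℝ,
      (∀ n : ℕ, n₀ ≤ n →
        ((a n = 1 / (n : ℝ) ∧ b n = 1 / ((n : ℝ) + 1)) ∨
          (a n = 1 / ((n : ℝ) + 1) ∧ b n = 1 / (n : ℝ))) ∧
        Set.Icc (x n) (x n + a n) ×ˢ Set.Icc (y n) (y n + b n) ⊆ Set.Icc 0 A ×ˢ Set.Icc 0 B) ∧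
      ∀ n m : ℕ, n₀ ≤ n → n₀ ≤ m → n ≠ m →
        Disjoint (Set.Ioo (x n) (x n + a n) ×ˢ Set.Ioo (y n) (y n + b n))
          (Set.Ioo (x m) (x m + a m) ×ˢ Set.Ioo (y m) (y m + b m)) := by
  obtain ⟨p, h1, h2⟩ := limit fun N => coords (by omega) hA hB (finite_T hn hA hB hAB hs N)
  refine ⟨fun n => (p n).1, fun n => (p n).2.1, fun n => (p n).2.2.1, fun n => (p n).2.2.2,
    fun n h => ?_, fun n m a b c => box_disj (h2 n m a b c)⟩
  obtain ⟨a, b, c, d, e⟩ := h1 n h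
  exact ⟨a, Set.prod_mono (Set.Icc_subset_Icc b c) (Set.Icc_subset_Icc d e)⟩

end Pool.Agent.Results.MP_f14165_co.TailRect
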